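import Pool.Agent.W957.MF.Stm

/-! Further statements of the project MF. -/

namespace Pool.Agent.W957.MF

open Finset

/-- MF-NFQ: recursion for the signed number of sets avoiding a family of intervals -/
def S_NFQ : Prop := ∀ (F : ℕ → ℕ → Prop) (n : ℕ), 1 ≤ n →
  (∀ s e, F s e → 1 ≤ s ∧ s ≤ e ∧ e ≤ n) →
  ∃ q : ℕ → ℤ, q (n + 1) = 1 ∧ q (n + 2) = 0 ∧
    (∀ a, 1 ≤ a → a ≤ n → (∀ s e, F s e → s < a) → q a = 1) ∧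
    (∀ a E, 1 ≤ a → a ≤ n → (∃ s, a ≤ s ∧ F s E) → (∀ s e, F s e → a ≤ s → E ≤ e) →
      q a = q (E + 2)) ∧
    NF F n = (-1) ^ n * (q 1 - q 2)

open Classical in
/-- MF-APC -/
def S_APC : Prop := ∀ p n : ℕ, 1 ≤ p →
  ((Icc 1 n).filter (fun l => ∃ K, n = l + K * p ∧
    ((l / p + 1) ∣ K ∨ (1 ≤ K ∧ (l / p + 1) ∣ (K - 1))))).card ≤ 4 * Nat.sqrt (n / p + 1)

/-- MF-SIMP7 -/
def S_SIMP7 : Prop := ∀ (z : Conf) (n : ℕ) (Q : ℕ → Bool → Bool) (e : ℕ → Bool), Pin z n Q e →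
  7 ≤ n → dir Q e 3 ≠ dir Q e 5 → SimpleSet z (Icc 1 7)

/-- MF-SIMP -/
def S_SIMP : Prop := ∀ (z : Conf) (n : ℕ) (Q : ℕ → Bool → Bool) (e : ℕ → Bool), Pin z n Q e →
  ∀ l, 7 ≤ l → l ≤ n → dir Q e 3 ≠ dir Q e 5 → SimpleSet z (Icc 1 l)

/-- MF-BORDER7 -/
def S_BORDER7 : Prop := ∀ (z : Conf) (n : ℕ) (Q : ℕ → Bool → Bool) (e : ℕ → Bool), Pin z n Q e →
  ∀ (s t : ℕ) (T : Finset ℕ) (σ : Equiv.Perm (Fin 7)), 7 ≤ n →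
    dir Q e 3 ≠ dir Q e 5 → Real z (Icc 1 7) σ → 1 ≤ s → s ≤ t → t ≤ n → T.card ≤ 1 →
    ((∀ a ∈ T, 1 ≤ a ∧ a + 2 ≤ s) ∧ Real z (T ∪ Icc s t) σ) →
      ∀ k, 3 ≤ k → k ≤ 7 → dir Q e (k + t - 7) = dir Q e k

/-- MF-PINF: the basic facts on consecutive pins -/
def S_PINF : Prop := ∀ (z : Conf) (n : ℕ) (Q : ℕ → Bool → Bool) (e : ℕ → Bool), Pin z n Q e →
  ∀ j, 3 ≤ j → j + 1 ≤ n → e (j + 1) = !e j ∧ Q (j + 1) (!e j) = Q j (!e j)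

end Pool.Agent.W957.MF
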