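import Mathlib

/-! Definitions for MP_080fe7_co Q2: pattern containment, the principal Moebius function,
hereditary classes, simple permutations. -/

namespace Pool.Agent.W957.MF

/-- `σ` is contained in `π` as a pattern. -/
def Contained {k n : ℕ} (σ : Equiv.Perm (Fin k)) (π : Equiv.Perm (Fin n)) : Prop :=
  ∃ f : Fin k → Fin n, StrictMono f ∧ ∀ i j, σ i < σ j ↔ π (f i) < π (f j)

open Classical in
/-- the principal Moebius function `μ(1, π)` of the pattern poset (for `π` of length `n ≥ 1`):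
`μ(1,1) = 1` and `μ(1,π) = - ∑ μ(1,τ)` over the `τ` with `1 ≤ τ < π`. -/
noncomputable def mu (n : ℕ) (π : Equiv.Perm (Fin n)) : ℤ :=
  if n = 1 then 1 else
    - ∑ k : Fin n, ∑ τ : Equiv.Perm (Fin (k : ℕ)),
        if 1 ≤ (k : ℕ) ∧ Contained τ π then mu (k : ℕ) τ else 0
termination_by n
decreasing_by exact k.2

/-- hereditary class (down-set for containment) -/
def Her (C : ∀ n : ℕ, Equiv.Perm (Fin n) → Prop) : Prop :=
  ∀ (k n : ℕ) (σ : Equiv.Perm (Fin k)) (π : Equiv.Perm (Fin n)),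
    Contained σ π → C n π → C k σ

/-- `|μ(1,π)| ≤ B` for all nonempty `π` in the class -/
def Bdd (C : ∀ n : ℕ, Equiv.Perm (Fin n) → Prop) (B : ℤ) : Prop :=
  ∀ (n : ℕ) (π : Equiv.Perm (Fin n)), 1 ≤ n → C n π → |mu n π| ≤ B

/-- an interval of `π`: consecutive positions with consecutive values -/
def IsInterval {n : ℕ} (π : Equiv.Perm (Fin n)) (s : Finset (Fin n)) : Prop :=
  (∀ a ∈ s, ∀ c ∈ s, ∀ b, a ≤ b → b ≤ c → b ∈ s) ∧
  (∀ a ∈ s, ∀ c ∈ s, ∀ b, π a ≤ π b → π b ≤ π c → b ∈ s)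

/-- simple permutation: only trivial intervals -/
def IsSimple {n : ℕ} (π : Equiv.Perm (Fin n)) : Prop :=
  ∀ s : Finset (Fin n), IsInterval π s → s.card ≤ 1 ∨ s = Finset.univ

end Pool.Agent.W957.MF
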