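import Pool.Agent.W957.MF.Pins3
import Pool.Agent.W237.MF.Pat
import Pool.Agent.W237.MF.Sym
import Pool.Agent.W237.MF.Pinf
import Pool.Agent.W369.MF.Nfq
import Pool.Agent.W369.MF.Simp
import Pool.Agent.W369.MF.Border
import Pool.Agent.W310.MFnf
import Pool.Agent.W991.MF.U
import Pool.Agent.W154.MF.MFPin
import Pool.Agent.W59.MFCNT
import Pool.Agent.W59.MFWORDS
import Pool.Agent.W362.MFChain
import Pool.Agent.W874.MFAFP
import Pool.Agent.W742.MFES
import Pool.Agent.W397.MF.Tip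
import Pool.Agent.W451.MF.SUBW
import Pool.Agent.W451.MF.PA
import Pool.Agent.W304.MF.W2
import Pool.Agent.W585.MF.Main
import Pool.Agent.W239.MF.Border7
import Pool.Agent.W356.MF.Osc
import Pool.Agent.W155.MF.W1

/-! Assembly of the project MF. -/

namespace Pool.Agent.W957.MF

theorem main : S_MAIN := by
  have hpat : S_PAT := W237.MF.t_PAT
  have hW : S_W := W237.MF.t_W hpat
  have hpinf : S_PINF := W237.MF.Pinf.t_PINF
  have hs7 : S_SIMP7 := Pool.Agent.W239.MFB.t_SIMP7 hpinf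
  have hb7 : S_BORDER7 := Pool.Agent.W239.MFB.t_BORDER7 hpinf
  have hcode : S_CODE := W237.MF.Pinf.t_CODE
  have hswap : S_SWAP := W237.MF.Pinf.t_SWAP
  have hsym : S_SYM := W237.MF.Sym.t_SYM
  have hnfq : S_NFQ := Pool.Agent.W369.MF.t_NFQ
  have hnf : S_NF := Pool.Agent.W310.MFnf.t_NF hnfq
  have hap : S_AP := Pool.Agent.W310.MFnf.t_AP hnfq
  have hapc : S_APC := Pool.Agent.W310.MFnf.t_APC
  have hU : S_U := Pool.Agent.W991.MF.t_U hpinf
  have hpin : S_PIN := Pool.Agent.W154.MF.t_PIN hU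
  have hcnt : S_CNT := Pool.Agent.W59.MF.t_CNT hW hpin hnf hpat
  have hwords : S_WORDS := Pool.Agent.W59.MF.t_WORDS
  have hchain : S_CHAIN := Pool.Agent.W362.MFChain.t_CHAIN
  have htopin : S_TOPIN := Pool.Agent.W362.MFChain.t_TOPIN
  have hafp : S_AFP := Pool.Agent.W874.MFAFP.t_AFP hchain
  have hes : S_ES := Pool.Agent.W742.MF.t_ES
  have htip : S_TIP := Pool.Agent.W397.MF.t_TIP hchain
  have hsubw : S_SUBW := Pool.Agent.W451.MF.t_SUBW
  have hpa : S_PA := Pool.Agent.W451.MF.t_PA hW hpat hsubw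
  have hw1 : S_W1 := Pool.Agent.W155.MF.t_W1 hW hpat hsubw
  have hw2 : S_W2 := Pool.Agent.W304.MF.t_W2 hW hpat hsubw
  have hsimp : S_SIMP := Pool.Agent.W369.MF.t_SIMP hpinf hs7
  have hborder : S_BORDER := Pool.Agent.W369.MF.t_BORDER hpinf hsimp hb7
  have hosc : S_OSC := Pool.Agent.W356.MF.t_OSC hcnt hpin hap hnf hcode hpinf hapc hpat
  have hpins : S_PINS :=
    t_PINS hcnt hpin hap hnf hcode hpinf hapc hborder hosc hswap hwords
  have hstr : S_STR := Pool.Agent.W585.MF.t_STR hafp hes htip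
  exact Pool.Agent.W585.MF.t_MAIN hstr hpins htopin hpa hw1 hw2 hsym

end Pool.Agent.W957.MF
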