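import Pool.Agent.W957.MF.Stm2

/-! MF-PINS: assembly of the pin sequence part. -/

namespace Pool.Agent.W957.MF

open Finset

/-- shifted configuration -/
def shift (s : ℕ) (z : Conf) : Conf := fun b i => z b (i + s)

theorem Pin.shift {z : Conf} {n : ℕ} {Q : ℕ → Bool → Bool} {e : ℕ → Bool} (h : Pin z n Q e)
    {s m : ℕ} (hs : m + s ≤ n) :
    Pin (shift s z) m (fun j => Q (j + s)) (fun j => e (j + s)) where
  gp := by
    intro b i hi j hj hij
    have hi' := Finset.mem_Icc.1 (Finset.mem_coe.1 hi)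
    have hj' := Finset.mem_Icc.1 (Finset.mem_coe.1 hj)
    have := h.gp b (x₁ := i + s) (x₂ := j + s) (by simp; omega) (by simp; omega) hij
    omega
  far := by
    intro j i b h3 hj hi hij
    exact h.far (j + s) (i + s) b (by omega) (by omega) (by omega) (by omega)
  nearE := by
    intro j h3 hj
    have := h.nearE (j + s) (by omega) (by omega)
    have e1 : j - 1 + s = j + s - 1 := by omega
    simp only [Pool.Agent.W957.MF.shift, e1]
    exact this
  nearF := by
    intro j h3 hj
    have := h.nearF (j + s) (by omega) (by omega)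
    have e1 : j - 1 + s = j + s - 1 := by omega
    simp only [Pool.Agent.W957.MF.shift, e1]
    exact this

theorem Pin.mono {z : Conf} {n : ℕ} {Q : ℕ → Bool → Bool} {e : ℕ → Bool} (h : Pin z n Q e)
    {m : ℕ} (hs : m ≤ n) : Pin z m Q e where
  gp := by
    intro b
    exact (h.gp b).mono (by
      intro x hx
      have hx' := Finset.mem_Icc.1 (Finset.mem_coe.1 hx)
      simp; omega)
  far := by
    intro j i b h3 hj hi hij
    exact h.far j i b (by omega) (by omega) (by omega) (by omega)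
  nearE := fun j h3 hj => h.nearE j h3 (by omega)
  nearF := fun j h3 hj => h.nearF j h3 (by omega)

theorem Occ.mono {z : Conf} {S T : Finset ℕ} {k : ℕ} {σ : Equiv.Perm (Fin k)} (h : Occ z S σ)
    (hST : S ⊆ T) : Occ z T σ := by
  obtain ⟨f, h1, h2, h3⟩ := h
  exact ⟨f, fun i => hST (h1 i), h2, h3⟩

theorem occ_shift {z : Conf} {s a b : ℕ} {k : ℕ} {σ : Equiv.Perm (Fin k)} :
    Occ (shift s z) (Icc a b) σ ↔ Occ z (Icc (a + s) (b + s)) σ := by
  constructor
  · rintro ⟨f, h1, h2, h3⟩
    refine ⟨fun i => f i + s, ?_, h2, h3⟩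
    intro i
    have := Finset.mem_Icc.1 (h1 i)
    simp; omega
  · rintro ⟨f, h1, h2, h3⟩
    refine ⟨fun i => f i - s, ?_, ?_, ?_⟩
    · intro i
      have := Finset.mem_Icc.1 (h1 i)
      simp; omega
    · intro i j
      have hi := Finset.mem_Icc.1 (h1 i)
      have hj := Finset.mem_Icc.1 (h1 j)
      have ei : f i - s + s = f i := by omega
      have ej : f j - s + s = f j := by omega
      simp only [shift, ei, ej]
      exact h2 i j
    · intro i j
      have hi := Finset.mem_Icc.1 (h1 i)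
      have hj := Finset.mem_Icc.1 (h1 j)
      have ei : f i - s + s = f i := by omega
      have ej : f j - s + s = f j := by omega
      simp only [shift, ei, ej]
      exact h3 i j

theorem real_shift {z : Conf} {s a b : ℕ} {k : ℕ} {σ : Equiv.Perm (Fin k)} :
    Real (shift s z) (Icc a b) σ ↔ Real z (Icc (a + s) (b + s)) σ := by
  unfold Real
  rw [occ_shift]
  simp only [Nat.card_Icc]
  constructor
  · rintro ⟨h1, h2⟩
    exact ⟨by omega, h2⟩
  · rintro ⟨h1, h2⟩
    exact ⟨by omega, h2⟩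

theorem InC.mono {C : ∀ n : ℕ, Equiv.Perm (Fin n) → Prop} {z : Conf} {S T : Finset ℕ}
    (h : InC C z T) (hST : S ⊆ T) : InC C z S := fun k σ ho => h k σ (ho.mono hST)

theorem InC.shift {C : ∀ n : ℕ, Equiv.Perm (Fin n) → Prop} {z : Conf} {n m s : ℕ}
    (h : InC C z (Icc 1 n)) (hs : m + s ≤ n) : InC C (shift s z) (Icc 1 m) := by
  intro k σ ho
  rw [occ_shift] at ho
  refine h k σ (ho.mono ?_)
  intro x hx
  have := Finset.mem_Icc.1 hx
  simp; omega

theorem Bdd.mono {C : ∀ n : ℕ, Equiv.Perm (Fin n) → Prop} {B B' : ℤ} (h : Bdd C B)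
    (hB : B ≤ B') : Bdd C B' := fun n π h1 h2 => le_trans (h n π h1 h2) hB

/-- the data of a pin is determined by the directions of it and of the previous pin -/
theorem data_of_dir (h6 : S_PINF) {z : Conf} {n : ℕ} {Q : ℕ → Bool → Bool} {e : ℕ → Bool}
    (h : Pin z n Q e) {j j' : ℕ} (hj : 4 ≤ j) (hj' : 4 ≤ j') (hn : j ≤ n) (hn' : j' ≤ n)
    (h1 : dir Q e j = dir Q e j') (h2 : dir Q e (j - 1) = dir Q e (j' - 1)) :
    Q j = Q j' ∧ e j = e j' := by
  have a1 := h6 z n Q e h (j - 1) (by omega) (by omega)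
  have a2 := h6 z n Q e h (j' - 1) (by omega) (by omega)
  have e1 : j - 1 + 1 = j := by omega
  have e2 : j' - 1 + 1 = j' := by omega
  rw [e1] at a1
  rw [e2] at a2
  simp only [dir, Prod.mk.injEq] at h1 h2
  obtain ⟨h11, h12⟩ := h1
  obtain ⟨h21, h22⟩ := h2
  obtain ⟨a11, a12⟩ := a1
  obtain ⟨a21, a22⟩ := a2
  refine ⟨?_, h11⟩
  funext b
  by_cases hb : b = e j
  · -- b = e j = !e (j-1)
    have hb1 : b = !e (j - 1) := by rw [hb, a11]
    have hb2 : b = !e (j' - 1) := by rw [hb1, h21]
    calc Q j b = Q (j - 1) (!e (j - 1)) := by rw [hb1, a12]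
      _ = Q (j' - 1) (!e (j' - 1)) := h22
      _ = Q j' b := by rw [hb2, a22]
  · have hb1 : b = !e j := by
      cases b <;> cases h0 : e j <;> simp_all
    have hb2 : b = !e j' := by rw [hb1, h11]
    calc Q j b = Q j (!e j) := by rw [hb1]
      _ = Q j' (!e j') := h12
      _ = Q j' b := by rw [hb2]

end Pool.Agent.W957.MF
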