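import Pool.Agent.W957.MF.Pins

/-! MF-PINS: words. -/

namespace Pool.Agent.W957.MF

open Finset

/-- the language: words of pin sequences in the class with a turn at the start -/
def Lang (C : ∀ n : ℕ, Equiv.Perm (Fin n) → Prop) (M : ℕ) (D : ℕ → Bool × Bool) : Prop :=
  ∃ (z : Conf) (Q : ℕ → Bool → Bool) (e : ℕ → Bool), Pin z (M + 2) Q e ∧
    InC C z (Icc 1 (M + 2)) ∧ dir Q e 3 ≠ dir Q e 5 ∧ ∀ k, k < M → D k = dir Q e (k + 3)

theorem Lang.mono {C : ∀ n : ℕ, Equiv.Perm (Fin n) → Prop} {M M' : ℕ} {D : ℕ → Bool × Bool}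
    (hM : M' ≤ M) (h : Lang C M D) : Lang C M' D := by
  obtain ⟨z, Q, e, h1, h2, h3, h4⟩ := h
  exact ⟨z, Q, e, h1.mono (by omega), h2.mono (Finset.Icc_subset_Icc le_rfl (by omega)), h3,
    fun k hk => h4 k (by omega)⟩

theorem lang_nonempty (h9 : S_OSC) {C : ∀ n : ℕ, Equiv.Perm (Fin n) → Prop} {B : ℕ}
    (hC : Her C) (hB : Bdd C B)
    (hall : ∀ n : ℕ, ∃ (z : Conf) (Q : ℕ → Bool → Bool) (e : ℕ → Bool), Pin z n Q e ∧
      InC C z (Icc 1 n)) : ∀ M, ∃ D, Lang C M D := by
  have h := h9 C B hC hB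
  push Not at h
  obtain ⟨n0, hn0⟩ := h
  intro M
  obtain ⟨z, Q, e, hp, hin⟩ := hall (M + n0 + 2)
  obtain ⟨j, hj3, hj5, hne⟩ := hn0 z Q e (hp.mono (by omega))
    (hin.mono (Finset.Icc_subset_Icc le_rfl (by omega)))
  refine ⟨fun k => dir Q e (k + j), shift (j - 3) z, fun i => Q (i + (j - 3)),
    fun i => e (i + (j - 3)), hp.shift (by omega), hin.shift (by omega), ?_, ?_⟩
  · intro hh
    apply hne
    have e1 : 3 + (j - 3) = j := by omega
    have e2 : 5 + (j - 3) = j + 2 := by omega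
    simp only [dir, e1, e2] at hh
    exact hh
  · intro k hk
    have e1 : k + 3 + (j - 3) = k + j := by omega
    simp only [dir, e1]

/-- from a counted length to a border -/
theorem border_of_GN (h2 : S_PIN) (h4 : S_NF) (h8 : S_BORDER) {z : Conf} {n : ℕ}
    {Q : ℕ → Bool → Bool} {e : ℕ → Bool} (hp : Pin z n Q e) (hturn : dir Q e 3 ≠ dir Q e 5)
    {l : ℕ} (hl : 7 ≤ l) (hln : l ≤ n) (hg : GN z n l) :
    ∀ k, 3 ≤ k → k ≤ l → dir Q e (k + n - l) = dir Q e k := by
  obtain ⟨σ, hocc, hne⟩ := hg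
  have hn : 1 ≤ n := by omega
  rw [h2 z n Q e hp hn l σ (by omega)] at hne
  have hne' : NF (FI z n σ) n ≠ 0 := by
    intro h0
    apply hne
    rw [h0]; simp
  have hval : ∀ s t, FI z n σ s t → 1 ≤ s ∧ s ≤ t ∧ t ≤ n := by
    intro s t hst
    rcases hst with hst | hst
    · obtain ⟨a1, a2, T, hT, hT2, _⟩ := hst
      obtain ⟨t0, ht0⟩ := hT
      have := hT2 t0 ht0
      exact ⟨by omega, a1, a2⟩
    · exact ⟨hst.1, hst.2.1, hst.2.2.1⟩
  have hex : ∃ s, FI z n σ s n := by
    by_contra hcon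
    push Not at hcon
    exact hne' ((h4 _ n hn hval).2.2 hcon)
  obtain ⟨s, hs⟩ := hex
  have hreal : Real z (Icc 1 l) σ := ⟨by simp, hocc⟩
  have hv := hval s n hs
  rcases hs with hs | hs
  · obtain ⟨a1, a2, T, hT, hT2, hT3⟩ := hs
    exact (h8 z n Q e hp l s n T σ hl hln hturn hreal hv.1 a1 le_rfl ⟨hT2, hT3⟩).2.2
  · have := h8 z n Q e hp l s n ∅ σ hl hln hturn hreal hv.1 hv.2.1 le_rfl
      ⟨by simp, by simpa using hs.2.2.2⟩
    exact this.2.2

theorem many_borders (h1 : S_CNT) (h2 : S_PIN) (h4 : S_NF) (h8 : S_BORDER)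
    {C : ∀ n : ℕ, Equiv.Perm (Fin n) → Prop} {B : ℕ} (hB : Bdd C B) (M : ℕ)
    (D : ℕ → Bool × Bool) (hM : 1 ≤ M) (hL : Lang C M D) :
    M ≤ (7 * B) * ((range M).filter (fun b => ∀ k, k < b → D k = D (M - b + k))).card := by
  classical
  obtain ⟨z, Q, e, hp, hin, hturn, hD⟩ := hL
  have hcnt := h1 C B hB z (M + 2) Q e hp (by omega) hin
  set G := (Icc 2 (M + 2)).filter (fun l => GN z (M + 2) l) with hG
  set W := (range M).filter (fun b => ∀ k, k < b → D k = D (M - b + k)) with hW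
  have hsub : G ⊆ Icc 2 6 ∪ ({M + 2} ∪ W.image (fun b => b + 2)) := by
    intro l hl
    rw [hG, Finset.mem_filter, Finset.mem_Icc] at hl
    obtain ⟨⟨hl2, hlM⟩, hgn⟩ := hl
    by_cases h6 : l ≤ 6
    · exact Finset.mem_union_left _ (Finset.mem_Icc.2 ⟨hl2, h6⟩)
    · by_cases hM2 : l = M + 2
      · exact Finset.mem_union_right _ (Finset.mem_union_left _ (by simp [hM2]))
      · refine Finset.mem_union_right _ (Finset.mem_union_right _ ?_)
        rw [Finset.mem_image]
        refine ⟨l - 2, ?_, by omega⟩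
        rw [hW, Finset.mem_filter, Finset.mem_range]
        refine ⟨by omega, ?_⟩
        intro k hk
        have hb := border_of_GN h2 h4 h8 hp hturn (by omega) (by omega) hgn (k + 3) (by omega)
          (by omega)
        rw [hD k (by omega), hD (M - (l - 2) + k) (by omega), ← hb]
        congr 1
        omega
  have hcard : G.card ≤ 5 + (1 + W.card) := by
    calc G.card ≤ (Icc 2 6 ∪ ({M + 2} ∪ W.image (fun b => b + 2))).card :=
          Finset.card_le_card hsub
      _ ≤ (Icc 2 6).card + (({M + 2} : Finset ℕ) ∪ W.image (fun b => b + 2)).card :=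
          Finset.card_union_le _ _
      _ ≤ 5 + (({M + 2} : Finset ℕ).card + (W.image (fun b => b + 2)).card) := by
          have := Finset.card_union_le ({M + 2} : Finset ℕ) (W.image (fun b => b + 2))
          simp only [Nat.card_Icc] at *
          omega
      _ ≤ 5 + (1 + W.card) := by
          have := Finset.card_image_le (s := W) (f := fun b => b + 2)
          simp only [Finset.card_singleton]
          omega
  have hW1 : 1 ≤ W.card := by
    apply Finset.card_pos.2
    refine ⟨0, ?_⟩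
    rw [hW, Finset.mem_filter, Finset.mem_range]
    exact ⟨by omega, fun k hk => by omega⟩
  calc M ≤ B * G.card := by omega
    _ ≤ B * (7 * W.card) := Nat.mul_le_mul_left _ (by omega)
    _ = (7 * B) * W.card := by ring

end Pool.Agent.W957.MF
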