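import Pool.Agent.W957.MF.Pins2

/-! MF-PINS: the periodic case and the conclusion. -/

namespace Pool.Agent.W957.MF

open Finset

theorem per_iter {p M : ℕ} {D : ℕ → Bool × Bool} (h : Per p M D) :
    ∀ c k : ℕ, k + c * p < M → D (k + c * p) = D k := by
  intro c
  induction c with
  | zero => intro k _; simp
  | succ c ih =>
    intro k hk
    have e1 : k + (c + 1) * p = (k + c * p) + p := by ring
    rw [e1] at hk ⊢
    rw [h (k + c * p) hk]
    exact ih k (by omega)

/-- the key count in the periodic case -/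
theorem gn_periodic (h2 : S_PIN) (h3 : S_AP) (h4 : S_NF) (h5 : S_CODE) (h6 : S_PINF)
    (h8 : S_BORDER) (h10 : S_SWAP)
    {C : ∀ n : ℕ, Equiv.Perm (Fin n) → Prop} {p M0 M : ℕ} {D : ℕ → Bool × Bool}
    {z : Conf} {Q : ℕ → Bool → Bool} {e : ℕ → Bool}
    (hp : Pin z (M + p + 2) Q e) (hin : InC C z (Icc 1 (M + p + 2)))
    (hturn : dir Q e 3 ≠ dir Q e 5) (hD : ∀ k, k < M + p → D k = dir Q e (k + 3))
    (hper : Per p (M + p) D) (hp2 : 2 ≤ p) (hM5 : 5 ≤ M)
    (hmin : ∀ r D, 1 ≤ r → r < p → Lang C M0 D → ¬ Per r M0 D)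
    {l : ℕ} (hl : 7 ≤ l) (hlM : M0 + 2 ≤ l) (hln : l ≤ M + 2)
    (hg : GN (shift p z) (M + 2) l) :
    ∃ K, M + 2 = l + K * p ∧ ((l / p + 1) ∣ K ∨ (1 ≤ K ∧ (l / p + 1) ∣ (K - 1))) := by
  set n := M + 2 with hn
  set z' := shift p z with hz'
  set Q' : ℕ → Bool → Bool := fun j => Q (j + p) with hQ'
  set e' : ℕ → Bool := fun j => e (j + p) with he'
  have hp' : Pin z' n Q' e' := hp.shift (by omega)
  have hin' : InC C z' (Icc 1 n) := hin.shift (by omega)
  -- directions are periodic
  have hdirper : ∀ j, 3 ≤ j → j + p ≤ M + p + 2 → dir Q e (j + p) = dir Q e j := by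
    intro j hj hjn
    have := hper (j - 3) (by omega)
    rw [hD (j - 3 + p) (by omega), hD (j - 3) (by omega)] at this
    have e1 : j - 3 + p + 3 = j + p := by omega
    have e2 : j - 3 + 3 = j := by omega
    rw [e1, e2] at this
    exact this
  have hdir' : ∀ j, dir Q' e' j = dir Q e (j + p) := by
    intro j
    simp [dir, hQ', he']
  have hdir'2 : ∀ j, 3 ≤ j → j ≤ n → dir Q' e' j = dir Q e j := by
    intro j hj hjn
    rw [hdir', hdirper j hj (by omega)]
  have hdata : ∀ j, 4 ≤ j → j + p ≤ M + p + 2 → Q (j + p) = Q j ∧ e (j + p) = e j := by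
    intro j hj hjn
    refine data_of_dir h6 hp (by omega) hj hjn (by omega) (hdirper j (by omega) hjn) ?_
    have e1 : j + p - 1 = (j - 1) + p := by omega
    rw [e1]
    exact hdirper (j - 1) (by omega) (by omega)
  have hdata2 : ∀ c j, 4 ≤ j → j + c * p ≤ M + p + 2 → Q (j + c * p) = Q j ∧
      e (j + c * p) = e j := by
    intro c
    induction c with
    | zero => intro j _ _; simp
    | succ c ih =>
      intro j hj hjn
      have e1 : j + (c + 1) * p = (j + c * p) + p := by ring
      rw [e1] at hjn ⊢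
      have a := hdata (j + c * p) (by omega) hjn
      have b := ih j hj (by omega)
      exact ⟨a.1.trans b.1, a.2.trans b.2⟩
  have hturn' : dir Q' e' 3 ≠ dir Q' e' 5 := by
    rw [hdir'2 3 le_rfl (by omega), hdir'2 5 (by omega) (by omega)]
    exact hturn
  obtain ⟨σ, hocc, hne⟩ := hg
  rw [h2 z' n Q' e' hp' (by omega) l σ (by omega)] at hne
  have hne' : NF (FI z' n σ) n ≠ 0 := by
    intro h0
    apply hne
    rw [h0]; simp
  have hreal : Real z' (Icc 1 l) σ := ⟨by simp, hocc⟩
  have hval : ∀ s t, FI z' n σ s t → 1 ≤ s ∧ s ≤ t ∧ t ≤ n := by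
    intro s t hst
    rcases hst with hst | hst
    · obtain ⟨a1, a2, T, hT, hT2, _⟩ := hst
      obtain ⟨t0, ht0⟩ := hT
      have := hT2 t0 ht0
      exact ⟨by omega, a1, a2⟩
    · exact ⟨hst.1, hst.2.1, hst.2.2.1⟩
  -- windows at 1 + k p
  have hconv : ∀ k, k * p + l ≤ n → Real z' (Icc (1 + k * p) (k * p + l)) σ := by
    intro k hk
    rw [hz', real_shift]
    have hr : Real z (Icc (1 + p) (l + p)) σ := by
      rw [hz', real_shift] at hreal
      exact hreal
    have h5' := h5 z (M + p + 2) Q e hp l σ (1 + p) (1 + k * p + p) (by omega) (by omega)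
      (by omega) (by omega) (by omega) ?_ ?_
    · have e1 : 1 + k * p + p + l - 1 = k * p + l + p := by omega
      rw [e1] at h5'
      exact h5'
    · intro j hj1 hjl
      have := hdata2 k (1 + p + j) (by omega) (by omega)
      have e1 : 1 + k * p + p + j = 1 + p + j + k * p := by ring
      rw [e1]
      exact ⟨this.1.symm, this.2.symm⟩
    · have e1 : 1 + p + l - 1 = l + p := by omega
      rw [e1]
      exact hr
  -- every interval of the family is of this form
  have hform : ∀ s t, FI z' n σ s t → ∃ k, s = 1 + k * p ∧ t = k * p + l := by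
    intro s t hst
    have hv := hval s t hst
    -- find T
    have hT : ∃ T : Finset ℕ, (∀ a ∈ T, 1 ≤ a ∧ a + 2 ≤ s) ∧ Real z' (T ∪ Icc s t) σ := by
      rcases hst with hst | hst
      · obtain ⟨a1, a2, T, hT, hT2, hT3⟩ := hst
        exact ⟨T, hT2, hT3⟩
      · exact ⟨∅, by simp, by simpa using hst.2.2.2⟩
    obtain ⟨T, hT1, hT2⟩ := hT
    obtain ⟨b1, b2, b3⟩ := h8 z' n Q' e' hp' l s t T σ hl (by omega) hturn' hreal hv.1 hv.2.1
      hv.2.2 ⟨hT1, hT2⟩
    have hTs : T.card = 0 ∨ (T.card = 1 ∧ 3 ≤ s) := by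
      rcases Nat.eq_zero_or_pos T.card with h0 | h0
      · exact Or.inl h0
      · right
        obtain ⟨a, ha⟩ := Finset.card_pos.1 h0
        have := hT1 a ha
        exact ⟨by omega, by omega⟩
    have htl : l ≤ t := by
      rcases hTs with h0 | ⟨h0, h0'⟩ <;> omega
    obtain ⟨r, hr⟩ : ∃ r, t = l + r := ⟨t - l, by omega⟩
    -- word equality
    have hword : ∀ k, k < l - 2 → D (k + r) = D k := by
      intro k hk
      have := b3 (k + 3) (by omega) (by omega)
      have e1 : k + 3 + t - l = k + r + 3 := by omega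
      rw [e1, hdir'2 (k + r + 3) (by omega) (by omega), hdir'2 (k + 3) (by omega) (by omega)]
        at this
      rw [hD (k + r) (by omega), hD k (by omega)]
      exact this
    have hdvd : p ∣ r := by
      by_contra hnd
      have hmod : 1 ≤ r % p := by
        rcases Nat.eq_zero_or_pos (r % p) with h0 | h0
        · exact absurd (Nat.dvd_of_mod_eq_zero h0) hnd
        · exact h0
      have hlt : r % p < p := Nat.mod_lt _ (by omega)
      apply hmin (r % p) D hmod hlt
      · exact ⟨z, Q, e, hp.mono (by omega),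
          hin.mono (Finset.Icc_subset_Icc le_rfl (by omega)), hturn,
          fun k hk => hD k (by omega)⟩
      · intro k hk
        have hdiv : r = r % p + (r / p) * p := by
          have := Nat.mod_add_div r p
          rw [mul_comm (r / p) p]
          omega
        have hk2 : k < l - 2 := by omega
        rw [← hword k hk2]
        have e1 : k + r = (k + r % p) + (r / p) * p := by omega
        rw [e1]
        exact (per_iter hper (r / p) (k + r % p) (by omega)).symm
    obtain ⟨k, hk⟩ := hdvd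
    rw [mul_comm] at hk
    refine ⟨k, ?_, by omega⟩
    rcases hTs with h0 | ⟨h0, h0'⟩
    · omega
    · exfalso
      obtain ⟨a, ha⟩ := Finset.card_eq_one.1 h0
      have ha1 := hT1 a (by rw [ha]; simp)
      have hs : s = 2 + k * p := by omega
      have hnot := h10 z' n Q' e' hp' l σ s t a (by omega) hv.2.1 hv.2.2 ha1.1 ha1.2
        (by
          rw [ha] at hT2
          have e1 : ({a} : Finset ℕ) ∪ Icc s t = insert a (Icc s t) := by
            ext x; simp
          rw [e1] at hT2
          exact hT2)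
      apply hnot
      have := hconv k (by omega)
      have e1 : s - 1 = 1 + k * p := by omega
      have e2 : t = k * p + l := by omega
      rw [e1, e2]
      exact this
  -- the last interval ends at n
  have hex : ∃ s, FI z' n σ s n := by
    by_contra hcon
    push Not at hcon
    exact hne' ((h4 _ n (by omega) hval).2.2 hcon)
  obtain ⟨s, hs⟩ := hex
  obtain ⟨K, hK1, hK2⟩ := hform s n hs
  refine ⟨K, by omega, ?_⟩
  apply h3 (FI z' n σ) p l K n (by omega) (by omega) (by omega) ?_ hne'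
  intro s t
  constructor
  · intro hst
    obtain ⟨k, hk1, hk2⟩ := hform s t hst
    have hv := hval s t hst
    refine ⟨k, ?_, hk1, hk2⟩
    by_contra hcon
    push Not at hcon
    have : (K + 1) * p ≤ k * p := Nat.mul_le_mul_right p hcon
    have e1 : (K + 1) * p = K * p + p := by ring
    omega
  · rintro ⟨k, hk, rfl, rfl⟩
    have : k * p ≤ K * p := Nat.mul_le_mul_right p hk
    exact Or.inr ⟨by omega, by omega, by omega, hconv k (by omega)⟩

theorem sqrt_bound (B l0 : ℕ) : ∃ n : ℕ, l0 ≤ n ∧ ∀ m, m ≤ n →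
    1 + B * (l0 + 4 * Nat.sqrt (m + 1)) < n := by
  refine ⟨(4 * B + B * l0 + l0 + 10) ^ 2 - 1, ?_, ?_⟩
  · have : l0 + 1 ≤ (4 * B + B * l0 + l0 + 10) ^ 2 := by nlinarith [Nat.zero_le (B * l0)]
    omega
  · intro m hm
    set X := 4 * B + B * l0 + l0 + 10 with hX
    have hX1 : 1 ≤ X ^ 2 := by
      have : 1 ≤ X := by omega
      nlinarith
    have hs : Nat.sqrt (m + 1) ≤ X := by
      have h1 : Nat.sqrt (m + 1) ≤ Nat.sqrt (X ^ 2) := Nat.sqrt_le_sqrt (by omega)
      have h2 : Nat.sqrt (X ^ 2) = X := Nat.sqrt_eq' X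
      omega
    have h3 : B * (l0 + 4 * Nat.sqrt (m + 1)) ≤ B * (l0 + 4 * X) := Nat.mul_le_mul_left _ (by omega)
    have h4 : 1 + B * (l0 + 4 * X) + 1 < X ^ 2 := by
      have e1 : X ^ 2 = X * (4 * B) + X * (B * l0) + X * l0 + X * 10 := by
        rw [hX]; ring
      have h5 : B * l0 ≤ X * (B * l0) := Nat.le_mul_of_pos_left _ (by omega)
      nlinarith
    omega

theorem t_PINS (h1 : S_CNT) (h2 : S_PIN) (h3 : S_AP) (h4 : S_NF) (h5 : S_CODE) (h6 : S_PINF)
    (h7 : S_APC) (h8 : S_BORDER) (h9 : S_OSC) (h10 : S_SWAP) (h11 : S_WORDS) : S_PINS := by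
  classical
  intro C B0 hC hB0 hall
  -- make B positive
  set B := B0 + 1 with hBdef
  have hB : Bdd C (B : ℤ) := hB0.mono (by omega)
  have hne := lang_nonempty h9 hC hB hall
  obtain ⟨p, M0, hp1, hpM, hmin⟩ := h11 (Lang C) (7 * B) 1 (by omega) hne
    (fun M M' D hM h => h.mono hM)
    (fun M D hM h => many_borders h1 h2 h4 h8 hB M D hM h)
  obtain ⟨n, hn1, hn2⟩ := sqrt_bound B (M0 + 8)
  -- take M = n
  obtain ⟨D, hL, hper⟩ := hpM (n + p)
  obtain ⟨z, Q, e, hp, hin, hturn, hD⟩ := hL
  -- p is at least 2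
  have hp2 : 2 ≤ p := by
    by_contra hlt
    have hp1' : p = 1 := by omega
    have h0 := hper 0 (by omega)
    rw [hD (0 + p) (by omega), hD 0 (by omega)] at h0
    have a := (h6 z _ Q e hp 3 (by omega) (by omega)).1
    simp only [dir, Prod.mk.injEq, hp1'] at h0
    have h00 := h0.1
    norm_num at h00
    norm_num at a
    rw [a] at h00
    cases h33 : e 3 <;> simp [h33] at h00
  have hcnt := h1 C B hB (shift p z) (n + 2) (fun j => Q (j + p)) (fun j => e (j + p))
    (hp.shift (by omega)) (by omega) (hin.shift (by omega))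
  set G := (Icc 2 (n + 2)).filter (fun l => GN (shift p z) (n + 2) l) with hG
  set A := (Icc 1 (n + 2)).filter (fun l => ∃ K, n + 2 = l + K * p ∧
    ((l / p + 1) ∣ K ∨ (1 ≤ K ∧ (l / p + 1) ∣ (K - 1)))) with hA
  have hsub : G ⊆ Icc 1 (M0 + 7) ∪ A := by
    intro l hl
    rw [hG, Finset.mem_filter, Finset.mem_Icc] at hl
    obtain ⟨⟨hl2, hlM⟩, hgn⟩ := hl
    by_cases h7' : l ≤ M0 + 7
    · exact Finset.mem_union_left _ (Finset.mem_Icc.2 ⟨by omega, h7'⟩)
    · refine Finset.mem_union_right _ ?_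
      rw [hA, Finset.mem_filter, Finset.mem_Icc]
      refine ⟨⟨by omega, hlM⟩, ?_⟩
      exact gn_periodic (C := C) (M0 := M0) h2 h3 h4 h5 h6 h8 h10 hp hin hturn hD hper hp2 (by omega) hmin
        (by omega) (by omega) hlM hgn
  have hAc : A.card ≤ 4 * Nat.sqrt ((n + 2) / p + 1) := h7 p (n + 2) hp1
  have hGc : G.card ≤ (M0 + 7) + 4 * Nat.sqrt ((n + 2) / p + 1) := by
    calc G.card ≤ (Icc 1 (M0 + 7) ∪ A).card := Finset.card_le_card hsub
      _ ≤ (Icc 1 (M0 + 7)).card + A.card := Finset.card_union_le _ _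
      _ ≤ (M0 + 7) + 4 * Nat.sqrt ((n + 2) / p + 1) := by
        simp only [Nat.card_Icc]
        omega
  have hdiv : (n + 2) / p ≤ n := by
    have : (n + 2) / p ≤ (n + 2) / 2 := Nat.div_le_div_left hp2 (by omega)
    omega
  have hb := hn2 ((n + 2) / p) hdiv
  have : B * G.card ≤ B * ((M0 + 8) + 4 * Nat.sqrt ((n + 2) / p + 1)) :=
    Nat.mul_le_mul_left _ (by omega)
  omega

end Pool.Agent.W957.MF
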