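import Pool.Agent.W957.MF.Defs

/-! Statements of the sub-results for MP_080fe7_co Q2 (project MF).
Points: a configuration `z : Bool → ℕ → ℤ`, `z true i` = x-coordinate and `z false i` =
y-coordinate of the point with index `i`. -/

namespace Pool.Agent.W957.MF

open Finset

abbrev Conf := Bool → ℕ → ℤ

/-- general position on `S` -/
def GP (z : Conf) (S : Finset ℕ) : Prop := ∀ b, Set.InjOn (z b) (S : Set ℕ)

/-- the permutation `σ` occurs in the point set `S` -/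
def Occ (z : Conf) (S : Finset ℕ) {k : ℕ} (σ : Equiv.Perm (Fin k)) : Prop :=
  ∃ f : Fin k → ℕ, (∀ i, f i ∈ S) ∧ (∀ i j, i < j ↔ z true (f i) < z true (f j)) ∧
    (∀ i j, σ i < σ j ↔ z false (f i) < z false (f j))

open Classical in
/-- signed number of subsets of `S` containing `σ` -/
noncomputable def g (z : Conf) (S : Finset ℕ) {k : ℕ} (σ : Equiv.Perm (Fin k)) : ℤ :=
  ∑ T ∈ S.powerset.filter (fun T => Occ z T σ), (-1 : ℤ) ^ T.card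

/-- every pattern of `S` is in the class -/
def InC (C : ∀ n : ℕ, Equiv.Perm (Fin n) → Prop) (z : Conf) (S : Finset ℕ) : Prop :=
  ∀ (k : ℕ) (σ : Equiv.Perm (Fin k)), Occ z S σ → C k σ

/-- MF-W -/
def S_W : Prop := ∀ (z : Conf) (S : Finset ℕ), GP z S →
  ∑ k ∈ Icc 1 S.card, ∑ σ : Equiv.Perm (Fin k), mu k σ * g z S σ = - (S.card : ℤ)

/-- MF-PAT: every finite set in general position has a pattern -/
def S_PAT : Prop := ∀ (z : Conf) (S : Finset ℕ), GP z S →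
  ∃ σ : Equiv.Perm (Fin S.card), Occ z S σ ∧
    (∀ σ' : Equiv.Perm (Fin S.card), Occ z S σ' → σ' = σ) ∧
    (∀ (k : ℕ) (τ : Equiv.Perm (Fin k)), Occ z S τ ↔ Contained τ σ)

/-- signed comparison -/
def sl : Bool → ℤ → ℤ → Prop
  | true, a, b => a < b
  | false, a, b => b < a

/-- proper pin sequence `1, ..., n`. For `j ≥ 3` the point `j` lies in the quadrant `Q j` of all
points `i ≤ j - 2`; with respect to the point `j - 1` the axis `e j` is flipped, the other is not.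
So `j` is extreme in the direction (axis `!e j`, sign `Q j (!e j)`) and separates `j - 1` from the
earlier ones on the axis `e j`. -/
structure Pin (z : Conf) (n : ℕ) (Q : ℕ → Bool → Bool) (e : ℕ → Bool) : Prop where
  gp : GP z (Icc 1 n)
  far : ∀ j i b, 3 ≤ j → j ≤ n → 1 ≤ i → i + 2 ≤ j → sl (Q j b) (z b i) (z b j)
  nearE : ∀ j, 3 ≤ j → j ≤ n → sl (Q j (!e j)) (z (!e j) (j - 1)) (z (!e j) j)
  nearF : ∀ j, 3 ≤ j → j ≤ n → sl (!Q j (e j)) (z (e j) (j - 1)) (z (e j) j)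

/-- direction of the pin `j`: (flipped axis, sign on the other axis) -/
def dir (Q : ℕ → Bool → Bool) (e : ℕ → Bool) (j : ℕ) : Bool × Bool := (e j, Q j (!e j))

/-- `A` realises exactly `σ` -/
def Real (z : Conf) (A : Finset ℕ) {k : ℕ} (σ : Equiv.Perm (Fin k)) : Prop :=
  A.card = k ∧ Occ z A σ

/-- typed run: `T ∪ [s,e]` realises `σ` for a nonempty `T ⊆ [1, s-2]` -/
def TR (z : Conf) (n : ℕ) {k : ℕ} (σ : Equiv.Perm (Fin k)) (s e : ℕ) : Prop :=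
  s ≤ e ∧ e ≤ n ∧ ∃ T : Finset ℕ, T.Nonempty ∧ (∀ t ∈ T, 1 ≤ t ∧ t + 2 ≤ s) ∧
    Real z (T ∪ Icc s e) σ

/-- window -/
def WI (z : Conf) (n : ℕ) {k : ℕ} (σ : Equiv.Perm (Fin k)) (s e : ℕ) : Prop :=
  1 ≤ s ∧ s ≤ e ∧ e ≤ n ∧ Real z (Icc s e) σ

def FI (z : Conf) (n : ℕ) {k : ℕ} (σ : Equiv.Perm (Fin k)) (s e : ℕ) : Prop :=
  TR z n σ s e ∨ WI z n σ s e

open Classical in
/-- signed number of subsets of `[1,n]` containing no interval of the family `F` -/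
noncomputable def NF (F : ℕ → ℕ → Prop) (n : ℕ) : ℤ :=
  ∑ S ∈ (Icc 1 n).powerset.filter (fun S => ∀ s e, F s e → ¬ Icc s e ⊆ S), (-1 : ℤ) ^ S.card

/-- MF-U (the key claim). `φA`, `φB` list the points of `A`, `B = T ∪ [i,j]` in the same pattern. -/
def S_U : Prop := ∀ (z : Conf) (n : ℕ) (Q : ℕ → Bool → Bool) (e : ℕ → Bool), Pin z n Q e →
  ∀ (k : ℕ) (A T : Finset ℕ) (i j j0 : ℕ) (φA φB : Fin k → ℕ),
    Function.Injective φA → Function.Injective φB →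
    (∀ b u v, z b (φA u) < z b (φA v) ↔ z b (φB u) < z b (φB v)) →
    Finset.univ.image φA = A → Finset.univ.image φB = T ∪ Icc i j →
    T.Nonempty → (∀ t ∈ T, 1 ≤ t ∧ t + 2 ≤ i) → i ≤ j → j ≤ n →
    A ⊆ Icc 1 n → i - 1 ∈ A → (∀ a, i - 1 ≤ a → (a ∈ A ↔ a ≤ j0)) →
    ∀ u, φB u ∈ T → φA u + 2 ≤ i

/-- MF-PIN -/
def S_PIN : Prop := ∀ (z : Conf) (n : ℕ) (Q : ℕ → Bool → Bool) (e : ℕ → Bool), Pin z n Q e →
  1 ≤ n → ∀ (k : ℕ) (σ : Equiv.Perm (Fin k)), 2 ≤ k →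
    g z (Icc 1 n) σ = - NF (FI z n σ) n

/-- MF-NF: interval families -/
def S_NF : Prop := ∀ (F : ℕ → ℕ → Prop) (n : ℕ), 1 ≤ n → (∀ s e, F s e → 1 ≤ s ∧ s ≤ e ∧ e ≤ n) →
  |NF F n| ≤ 1 ∧ ((∀ e, ¬ F 1 e) → NF F n = 0) ∧ ((∀ s, ¬ F s n) → NF F n = 0)

/-- MF-AP: arithmetic progressions of windows -/
def S_AP : Prop := ∀ (F : ℕ → ℕ → Prop) (p l K n : ℕ), 1 ≤ p → 1 ≤ l → n = l + K * p →
  (∀ s e, F s e ↔ ∃ k, k ≤ K ∧ s = 1 + k * p ∧ e = k * p + l) →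
  NF F n ≠ 0 → (l / p + 1) ∣ K ∨ (1 ≤ K ∧ (l / p + 1) ∣ (K - 1))

/-- consequence: for a pin sequence with all patterns in a bounded class,
`n - 1 ≤ B * #{l ∈ [2,n] : g(pattern of [1,l]) ≠ 0}`. MF-CNT -/
def GN (z : Conf) (n l : ℕ) : Prop :=
  ∃ σ : Equiv.Perm (Fin l), Occ z (Icc 1 l) σ ∧ g z (Icc 1 n) σ ≠ 0

open Classical in
def S_CNT : Prop := ∀ (C : ∀ n : ℕ, Equiv.Perm (Fin n) → Prop) (B : ℕ), Bdd C B →
  ∀ (z : Conf) (n : ℕ) (Q : ℕ → Bool → Bool) (e : ℕ → Bool), Pin z n Q e → 1 ≤ n →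
    InC C z (Icc 1 n) → n ≤ 1 + B * ((Icc 2 n).filter (fun l => GN z n l)).card

/-- MF-BORDER: unique reading for words with a turn at the start -/
def S_BORDER : Prop := ∀ (z : Conf) (n : ℕ) (Q : ℕ → Bool → Bool) (e : ℕ → Bool), Pin z n Q e →
  ∀ (l s t : ℕ) (T : Finset ℕ) (σ : Equiv.Perm (Fin l)), 7 ≤ l → l ≤ n →
    dir Q e 3 ≠ dir Q e 5 → Real z (Icc 1 l) σ → 1 ≤ s → s ≤ t → t ≤ n →
    ((∀ a ∈ T, 1 ≤ a ∧ a + 2 ≤ s) ∧ Real z (T ∪ Icc s t) σ) →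
    T.card ≤ 1 ∧ t + 1 + T.card = s + l ∧
      ∀ k, 3 ≤ k → k ≤ l → dir Q e (k + t - l) = dir Q e k

/-- MF-SWAP: a base point in front of a run and the window with the preceding pin differ -/
def S_SWAP : Prop := ∀ (z : Conf) (n : ℕ) (Q : ℕ → Bool → Bool) (e : ℕ → Bool), Pin z n Q e →
  ∀ (k : ℕ) (σ : Equiv.Perm (Fin k)) (i j a : ℕ), 3 ≤ i → i ≤ j → j ≤ n → 1 ≤ a → a + 2 ≤ i →
    Real z (insert a (Icc i j)) σ → ¬ Real z (Icc (i - 1) j) σ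

/-- MF-CODE: windows with the same data are isomorphic (the same permutation) -/
def S_CODE : Prop := ∀ (z : Conf) (n : ℕ) (Q : ℕ → Bool → Bool) (e : ℕ → Bool), Pin z n Q e →
  ∀ (k : ℕ) (σ : Equiv.Perm (Fin k)) (s s' : ℕ), 2 ≤ k → 2 ≤ s → 2 ≤ s' →
    s + k ≤ n + 1 → s' + k ≤ n + 1 →
    (∀ j, 1 ≤ j → j < k → Q (s + j) = Q (s' + j) ∧ e (s + j) = e (s' + j)) →
    Real z (Icc s (s + k - 1)) σ → Real z (Icc s' (s' + k - 1)) σ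

/-- MF-WORDS -/
def Per (r M : ℕ) (D : ℕ → Bool × Bool) : Prop := ∀ k, k + r < M → D (k + r) = D k

open Classical in
def S_WORDS : Prop := ∀ (L : ℕ → (ℕ → Bool × Bool) → Prop) (B M1 : ℕ), 1 ≤ B →
  (∀ M, ∃ D, L M D) → (∀ M M' D, M' ≤ M → L M D → L M' D) →
  (∀ M D, M1 ≤ M → L M D →
    M ≤ B * ((range M).filter (fun b => ∀ k, k < b → D k = D (M - b + k))).card) →
  ∃ p M0 : ℕ, 1 ≤ p ∧ (∀ M, ∃ D, L M D ∧ Per p M D) ∧
    (∀ r D, 1 ≤ r → r < p → L M0 D → ¬ Per r M0 D)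

/-- MF-OSC: arbitrarily long two-directional pin sequences -/
def S_OSC : Prop := ∀ (C : ∀ n : ℕ, Equiv.Perm (Fin n) → Prop) (B : ℕ), Her C → Bdd C B →
  ¬ ∀ n : ℕ, ∃ (z : Conf) (Q : ℕ → Bool → Bool) (e : ℕ → Bool), Pin z n Q e ∧
    InC C z (Icc 1 n) ∧ ∀ j, 3 ≤ j → j + 2 ≤ n → dir Q e j = dir Q e (j + 2)

/-- MF-PINS: a bounded hereditary class has no arbitrarily long pin sequences -/
def S_PINS : Prop := ∀ (C : ∀ n : ℕ, Equiv.Perm (Fin n) → Prop) (B : ℕ), Her C → Bdd C B →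
  ¬ ∀ n : ℕ, ∃ (z : Conf) (Q : ℕ → Bool → Bool) (e : ℕ → Bool), Pin z n Q e ∧
    InC C z (Icc 1 n)

/-! ### alternations -/

/-- parallel alternation on `[1, 2t]` (x-order = index order; odd = upper, even = lower) -/
def PAc (z : Conf) (t : ℕ) : Prop :=
  (∀ i j, 1 ≤ i → i < j → j ≤ 2 * t → z true i < z true j) ∧
  (∀ i j, 1 ≤ i → i < j → j ≤ 2 * t → (i % 2 = j % 2) → z false i < z false j) ∧
  (∀ i j, 1 ≤ i → i ≤ 2 * t → 1 ≤ j → j ≤ 2 * t → i % 2 = 1 → j % 2 = 0 →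
    z false j < z false i)

/-- wedge with far point `0` at the opening, on `[0, 2t]` (odd = upper, decreasing; even =
lower, increasing) -/
def W1c (z : Conf) (t : ℕ) : Prop :=
  (∀ i j, i < j → j ≤ 2 * t → z true i < z true j) ∧
  (∀ i j, 1 ≤ i → i < j → j ≤ 2 * t → i % 2 = 1 → j % 2 = 1 → z false j < z false i) ∧
  (∀ i j, 1 ≤ i → i < j → j ≤ 2 * t → i % 2 = 0 → j % 2 = 0 → z false i < z false j) ∧
  (∀ i, 1 ≤ i → i ≤ 2 * t → i % 2 = 1 → z false 0 < z false i) ∧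
  (∀ i, 1 ≤ i → i ≤ 2 * t → i % 2 = 0 → z false i < z false 0)

/-- wedge `[1, 2t]`, then the maximum `2t+1`, then the middle point `2t+2` -/
def W2c (z : Conf) (t : ℕ) : Prop :=
  (∀ i j, 1 ≤ i → i < j → j ≤ 2 * t + 2 → z true i < z true j) ∧
  (∀ i j, 1 ≤ i → i < j → j ≤ 2 * t → i % 2 = 1 → j % 2 = 1 → z false j < z false i) ∧
  (∀ i j, 1 ≤ i → i < j → j ≤ 2 * t → i % 2 = 0 → j % 2 = 0 → z false i < z false j) ∧
  (∀ i, 1 ≤ i → i ≤ 2 * t → i % 2 = 1 → z false (2 * t + 2) < z false i) ∧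
  (∀ i, 1 ≤ i → i ≤ 2 * t → i % 2 = 0 → z false i < z false (2 * t + 2)) ∧
  (∀ i, 1 ≤ i → i ≤ 2 * t + 2 → i ≠ 2 * t + 1 → z false i < z false (2 * t + 1))

/-- MF-PA -/
def S_PA : Prop := ∀ (z : Conf) (t : ℕ), 2 ≤ t → PAc z t →
  ∃ σ : Equiv.Perm (Fin (2 * t)), Occ z (Icc 1 (2 * t)) σ ∧ (t : ℤ) ≤ |mu (2 * t) σ|

/-- MF-W1 -/
def S_W1 : Prop := ∀ (z : Conf) (t : ℕ), 2 ≤ t → W1c z t →
  ∃ σ : Equiv.Perm (Fin (2 * t + 1)), Occ z (Icc 0 (2 * t)) σ ∧ (t : ℤ) ≤ |mu (2 * t + 1) σ|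

/-- MF-W2 -/
def S_W2 : Prop := ∀ (z : Conf) (t : ℕ), 2 ≤ t → W2c z t →
  ∃ σ : Equiv.Perm (Fin (2 * t + 2)), Occ z (Icc 1 (2 * t + 2)) σ ∧
    (t : ℤ) ≤ |mu (2 * t + 2) σ|

/-- MF-SUBW: the alternating word `v = (true false)^*` of length `n`, a word `u` of length `m < n`:
the signed number of `S ⊆ [1,n]` such that `u` is a subword of `v|S` vanishes.
`v i = (i % 2 = 1)`. -/
def SubW (S : Finset ℕ) (m : ℕ) (u : Fin m → Bool) : Prop :=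
  ∃ f : Fin m → ℕ, StrictMono f ∧ (∀ a, f a ∈ S) ∧ ∀ a, u a = decide (f a % 2 = 1)

open Classical in
def S_SUBW : Prop := ∀ (n m : ℕ) (u : Fin m → Bool), m < n →
  ∑ S ∈ (Icc 1 n).powerset.filter (fun S => SubW S m u), (-1 : ℤ) ^ S.card = 0

/-! ### symmetries -/

/-- sign change -/
def sg : Bool → ℤ → ℤ
  | true, a => a
  | false, a => -a

/-- the eight symmetries of the square applied to a configuration -/
def symm (a s1 s2 : Bool) (z : Conf) : Conf := fun b n =>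
  if b then sg s1 (z a n) else sg s2 (z (!a) n)

/-- MF-SYM -/
def S_SYM : Prop := ∀ (a s1 s2 : Bool) (z : Conf) (S : Finset ℕ) (k : ℕ)
  (σ' : Equiv.Perm (Fin k)), GP z S → Occ (symm a s1 s2 z) S σ' →
    ∃ σ : Equiv.Perm (Fin k), Occ z S σ ∧ mu k σ = mu k σ'

/-! ### structure of simple sets -/

/-- simple point set -/
def SimpleSet (z : Conf) (S : Finset ℕ) : Prop :=
  ∀ Y ⊆ S, 2 ≤ Y.card → Y ≠ S →
    ∃ w ∈ S, w ∉ Y ∧ ∃ b, ∃ a ∈ Y, ∃ c ∈ Y, z b a < z b w ∧ z b w < z b c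

/-- pin condition at `j` for the sequence `c 1, c 2, ...` -/
def PinAt (z : Conf) (c : ℕ → ℕ) (j : ℕ) : Prop :=
  ∃ a s s' : Bool, (∀ i, 1 ≤ i → i < j → sl s (z a (c i)) (z a (c j))) ∧
    (∀ i, 1 ≤ i → i + 1 < j → sl s' (z (!a) (c i)) (z (!a) (c j))) ∧
    sl s' (z (!a) (c j)) (z (!a) (c (j - 1)))

/-- `c j` cuts the earlier points -/
def CutAt (z : Conf) (c : ℕ → ℕ) (j : ℕ) : Prop :=
  ∃ b, ∃ i i', 1 ≤ i ∧ i < j ∧ 1 ≤ i' ∧ i' < j ∧ z b (c i) < z b (c j) ∧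
    z b (c j) < z b (c i')

/-- MF-CHAIN -/
def S_CHAIN : Prop := ∀ (z : Conf) (S : Finset ℕ) (p1 p2 r : ℕ), GP z S → SimpleSet z S →
  p1 ∈ S → p2 ∈ S → r ∈ S → p1 ≠ p2 → r ≠ p1 → r ≠ p2 →
  ∃ (m : ℕ) (c : ℕ → ℕ), 3 ≤ m ∧ c 1 = p1 ∧ c 2 = p2 ∧ c m = r ∧
    (∀ j, 1 ≤ j → j ≤ m → c j ∈ S) ∧
    (∀ i j, 1 ≤ i → i < j → j ≤ m → c i ≠ c j) ∧
    (∀ j, 3 ≤ j → j ≤ m → CutAt z c j) ∧ (∀ j, 4 ≤ j → j ≤ m → PinAt z c j) ∧
    (4 ≤ m → PinAt z c 3)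

/-- `S` contains a pin sequence of length `k` -/
def HasPin (z : Conf) (S : Finset ℕ) (k : ℕ) : Prop :=
  ∃ c : ℕ → ℕ, (∀ j, 1 ≤ j → j ≤ k → c j ∈ S) ∧ (∀ i j, 1 ≤ i → i < j → j ≤ k → c i ≠ c j) ∧
    ∀ j, 3 ≤ j → j ≤ k → PinAt z c j

/-- MF-TOPIN: from `HasPin` to `Pin` -/
def S_TOPIN : Prop := ∀ (z : Conf) (S : Finset ℕ) (k : ℕ), GP z S → HasPin z S k →
  ∃ (z' : Conf) (Q : ℕ → Bool → Bool) (e : ℕ → Bool), Pin z' k Q e ∧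
    ∀ (m : ℕ) (σ : Equiv.Perm (Fin m)), Occ z' (Icc 1 k) σ → Occ z S σ

/-- alternation with far point `w` on its axis: `u 0, ..., u (2t-1)` in x-order, even index above
`w`, odd index below `w`, all to the left of `w`. -/
def AFP (z : Conf) (S : Finset ℕ) (t : ℕ) : Prop :=
  ∃ (u : ℕ → ℕ) (w : ℕ), w ∈ S ∧ (∀ i, i < 2 * t → u i ∈ S) ∧
    (∀ i j, i < j → j < 2 * t → z true (u i) < z true (u j)) ∧
    (∀ i, i < 2 * t → z true (u i) < z true w) ∧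
    (∀ i, i < 2 * t → i % 2 = 0 → z false w < z false (u i)) ∧
    (∀ i, i < 2 * t → i % 2 = 1 → z false (u i) < z false w)

/-- MF-AFP -/
def S_AFP : Prop := ∀ k t : ℕ, ∃ M : ℕ, ∀ (z : Conf) (S : Finset ℕ), GP z S → SimpleSet z S →
  M ≤ S.card → HasPin z S k ∨ ∃ a s1 s2, AFP (symm a s1 s2 z) S t

/-- the configuration of the sequence `u` -/
def pull (z : Conf) (u : ℕ → ℕ) : Conf := fun b i => z b (u i)

/-- tip configuration: `u 0, ..., u (2t-1)` in x-order, even = upper decreasing, odd = lower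
increasing, lower below upper -/
def Tip (z : Conf) (S : Finset ℕ) (t : ℕ) : Prop :=
  ∃ u : ℕ → ℕ, (∀ i, i < 2 * t → u i ∈ S) ∧
    (∀ i j, i < j → j < 2 * t → z true (u i) < z true (u j)) ∧
    (∀ i j, i < j → j < 2 * t → i % 2 = 0 → j % 2 = 0 → z false (u j) < z false (u i)) ∧
    (∀ i j, i < j → j < 2 * t → i % 2 = 1 → j % 2 = 1 → z false (u i) < z false (u j)) ∧
    (∀ i j, i < 2 * t → j < 2 * t → i % 2 = 0 → j % 2 = 1 → z false (u j) < z false (u i))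

def HasPA (z : Conf) (S : Finset ℕ) (t : ℕ) : Prop :=
  ∃ a s1 s2, ∃ u : ℕ → ℕ, (∀ i, i ≤ 2 * t + 2 → u i ∈ S) ∧ PAc (pull (symm a s1 s2 z) u) t

def HasW1 (z : Conf) (S : Finset ℕ) (t : ℕ) : Prop :=
  ∃ a s1 s2, ∃ u : ℕ → ℕ, (∀ i, i ≤ 2 * t + 2 → u i ∈ S) ∧ W1c (pull (symm a s1 s2 z) u) t

def HasW2 (z : Conf) (S : Finset ℕ) (t : ℕ) : Prop :=
  ∃ a s1 s2, ∃ u : ℕ → ℕ, (∀ i, i ≤ 2 * t + 2 → u i ∈ S) ∧ W2c (pull (symm a s1 s2 z) u) t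

/-- MF-ES: Erdoes-Szekeres -/
def S_ES : Prop := ∀ t : ℕ, ∃ M : ℕ, ∀ (z : Conf) (S : Finset ℕ), GP z S →
  ∀ a s1 s2, AFP (symm a s1 s2 z) S M →
    HasPA z S t ∨ HasW1 z S t ∨ ∃ a s1 s2, Tip (symm a s1 s2 z) S t

/-- MF-TIP -/
def S_TIP : Prop := ∀ k t : ℕ, ∃ M : ℕ, ∀ (z : Conf) (S : Finset ℕ), GP z S → SimpleSet z S →
  ∀ a s1 s2, Tip (symm a s1 s2 z) S M →
    HasPin z S k ∨ HasW1 z S t ∨ HasW2 z S t

/-- structure theorem, MF-STR -/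
def S_STR : Prop := ∀ k t : ℕ, ∃ M : ℕ, ∀ (z : Conf) (S : Finset ℕ), GP z S → SimpleSet z S →
  M ≤ S.card → HasPin z S k ∨ HasPA z S t ∨ HasW1 z S t ∨ HasW2 z S t

/-- the main theorem, MF-MAIN -/
def S_MAIN : Prop := ∀ (C : ∀ n : ℕ, Equiv.Perm (Fin n) → Prop), Her C →
  {p : Σ n : ℕ, Equiv.Perm (Fin n) | C p.1 p.2 ∧ IsSimple p.2}.Infinite →
    ¬ ∃ B : ℤ, Bdd C B

end Pool.Agent.W957.MF
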