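import Pool.Agent.W957.MF.Stm2

/-! MF-STR: structure theorem. -/

namespace Pool.Agent.W957.MF

open Finset

theorem PAc.mono {z : Conf} {t T : ℕ} (h : PAc z T) (htT : t ≤ T) : PAc z t := by
  obtain ⟨h1, h2, h3⟩ := h
  exact ⟨fun i j a b c => h1 i j a b (by omega), fun i j a b c => h2 i j a b (by omega),
    fun i j a b c d => h3 i j a (by omega) c (by omega)⟩

theorem W1c.mono {z : Conf} {t T : ℕ} (h : W1c z T) (htT : t ≤ T) : W1c z t := by
  obtain ⟨h1, h2, h3, h4, h5⟩ := h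
  exact ⟨fun i j a b => h1 i j a (by omega), fun i j a b c => h2 i j a b (by omega),
    fun i j a b c => h3 i j a b (by omega), fun i a b => h4 i a (by omega),
    fun i a b => h5 i a (by omega)⟩

theorem HasPA.mono {z : Conf} {S : Finset ℕ} {t T : ℕ} (h : HasPA z S T) (htT : t ≤ T) :
    HasPA z S t := by
  obtain ⟨a, s1, s2, u, h1, h2⟩ := h
  exact ⟨a, s1, s2, u, fun i hi => h1 i (by omega), h2.mono htT⟩

theorem HasW1.mono {z : Conf} {S : Finset ℕ} {t T : ℕ} (h : HasW1 z S T) (htT : t ≤ T) :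
    HasW1 z S t := by
  obtain ⟨a, s1, s2, u, h1, h2⟩ := h
  exact ⟨a, s1, s2, u, fun i hi => h1 i (by omega), h2.mono htT⟩

theorem Tip.mono {z : Conf} {S : Finset ℕ} {t T : ℕ} (h : Tip z S T) (htT : t ≤ T) :
    Tip z S t := by
  obtain ⟨u, h1, h2, h3, h4, h5⟩ := h
  exact ⟨u, fun i hi => h1 i (by omega), fun i j a b => h2 i j a (by omega),
    fun i j a b => h3 i j a (by omega), fun i j a b => h4 i j a (by omega),
    fun i j a b => h5 i j (by omega) (by omega)⟩

theorem t_STR (h1 : S_AFP) (h2 : S_ES) (h3 : S_TIP) : S_STR := by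
  intro k t
  obtain ⟨Mt, hMt⟩ := h3 k t
  obtain ⟨Me, hMe⟩ := h2 (max t Mt)
  obtain ⟨M, hM⟩ := h1 k Me
  refine ⟨M, ?_⟩
  intro z S hgp hs hMS
  rcases hM z S hgp hs hMS with h | ⟨a, s1, s2, h⟩
  · exact Or.inl h
  · rcases hMe z S hgp a s1 s2 h with h | h | ⟨a', s1', s2', h⟩
    · exact Or.inr (Or.inl (h.mono (le_max_left _ _)))
    · exact Or.inr (Or.inr (Or.inl (h.mono (le_max_left _ _))))
    · rcases hMt z S hgp hs a' s1' s2' (h.mono (le_max_right _ _)) with h | h | h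
      · exact Or.inl h
      · exact Or.inr (Or.inr (Or.inl h))
      · exact Or.inr (Or.inr (Or.inr h))

end Pool.Agent.W957.MF
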